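import Pool.Agent.N558.HC.CvA
import Pool.Agent.N541.HC.Dec

/-!
# Task M: matrix valued decimation of rectangular loops (helper558)
-/

open MeasureTheory Pool.Agent.N991.MK
open Pool.Agent.N989.MK Pool.Agent.N541.HC

namespace Pool.Agent.N558.HC

set_option linter.unusedSectionVars false

noncomputable section

section cont

variable {G : Type*} [Group G] [TopologicalSpace G] [IsTopologicalGroup G]

lemma vp_cont : ∀ (n : ℕ) (σ : Sec n) (x y : ℕ), Continuous fun U : Ed n → G => vp n σ U x y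
  | 0, σ, x, y => by
    unfold vp
    split_ifs
    · exact continuous_const
    · exact continuous_apply _
    · exact continuous_apply _
  | n + 1, (s, σ), x, y => by
    have ih := vp_cont n
    have he : ∀ q : Fin 4, Continuous fun U : Ed (n + 1) → G => fun e => U (emb s q e) :=
      fun q => continuous_pi fun e => continuous_apply _
    change Continuous fun U : Ed (n + 1) → G => if x ≤ 2 ^ n then
      vp n (σ 0) (fun e => U (emb s 0 e)) x (min y (2 ^ n)) *
        vp n (σ 2) (fun e => U (emb s 2 e)) x (y - 2 ^ n)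
    else
      vp n (σ 1) (fun e => U (emb s 1 e)) (x - 2 ^ n) (min y (2 ^ n)) *
        vp n (σ 3) (fun e => U (emb s 3 e)) (x - 2 ^ n) (y - 2 ^ n)
    split_ifs
    · exact ((ih (σ 0) _ _).comp (he 0)).mul ((ih (σ 2) _ _).comp (he 2))
    · exact ((ih (σ 1) _ _).comp (he 1)).mul ((ih (σ 3) _ _).comp (he 3))

lemma hp_cont : ∀ (n : ℕ) (σ : Sec n) (x y : ℕ), Continuous fun U : Ed n → G => hp n σ U x y
  | 0, σ, x, y => by
    unfold hp
    split_ifs
    · exact continuous_const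
    · exact continuous_apply _
    · exact continuous_apply _
  | n + 1, (s, σ), x, y => by
    have ih := hp_cont n
    have he : ∀ q : Fin 4, Continuous fun U : Ed (n + 1) → G => fun e => U (emb s q e) :=
      fun q => continuous_pi fun e => continuous_apply _
    change Continuous fun U : Ed (n + 1) → G => if y ≤ 2 ^ n then
      hp n (σ 0) (fun e => U (emb s 0 e)) (min x (2 ^ n)) y *
        hp n (σ 1) (fun e => U (emb s 1 e)) (x - 2 ^ n) y
    else
      hp n (σ 2) (fun e => U (emb s 2 e)) (min x (2 ^ n)) (y - 2 ^ n) *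
        hp n (σ 3) (fun e => U (emb s 3 e)) (x - 2 ^ n) (y - 2 ^ n)
    split_ifs
    · exact ((ih (σ 0) _ _).comp (he 0)).mul ((ih (σ 1) _ _).comp (he 1))
    · exact ((ih (σ 2) _ _).comp (he 2)).mul ((ih (σ 3) _ _).comp (he 3))

lemma rect_cont (n : ℕ) (σ : Sec n) (a b : ℕ) :
    Continuous fun U : Ed n → G => rect n σ U a b := by
  unfold rect
  exact (((hp_cont n σ a 0).mul (vp_cont n σ a b)).mul (hp_cont n σ a b).inv).mul
    (vp_cont n σ 0 b).inv

end cont

section fr

variable {G : Type*} [Group G] [TopologicalSpace G] [IsTopologicalGroup G] [CompactSpace G]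
  [MeasurableSpace G] [BorelSpace G] [SecondCountableTopology G]
  {μ : Measure G} [IsProbabilityMeasure μ] [μ.IsHaarMeasure] [μ.IsMulRightInvariant]
  [μ.IsInvInvariant]
  {𝔸 : Type*} [NormedRing 𝔸] [NormedAlgebra ℝ 𝔸] [CompleteSpace 𝔸]
  {ρ : G →* 𝔸} {w : G → ℝ}

lemma H4_cont (hw : Continuous w) (n : ℕ) : Continuous (H4 μ (Zr μ w n)) :=
  cont_conv (cont_conv (Zr_cont hw n) (Zr_cont hw n)) (cont_conv (Zr_cont hw n) (Zr_cont hw n))

lemma H4_cls (hc : Cls w) (n : ℕ) : Cls (H4 μ (Zr μ w n)) :=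
  conv_cls (conv_cls (Zr_cls hc n) (Zr_cls hc n)) (conv_cls (Zr_cls hc n) (Zr_cls hc n))

lemma FR_cont (hρ : Continuous ρ) (hw : Continuous w) : ∀ n a b, Continuous (FR μ w ρ n a b)
  | 0, a, b => by
    unfold FR
    split_ifs
    · exact hw.smul continuous_const
    · exact hw.smul hρ
  | n + 1, a, b => by
    have ih := FR_cont hρ hw n
    unfold FR
    refine ((H4_cont hw n).pow 3).smul (cv4_cont fun i => ?_)
    fin_cases i <;> exact ih _ _

lemma rho_inv (ρ : G →* 𝔸) (g : G) : ρ g * ρ g⁻¹ = 1 := by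
  rw [← map_mul, mul_inv_cancel, map_one]

lemma FR_eqv (hρ : Continuous ρ) (hw : Continuous w) (hc : Cls w) :
    ∀ n a b, Eqv ρ (FR μ w ρ n a b)
  | 0, a, b => fun g x => by
    unfold FR
    split_ifs
    · rw [hc, mul_smul_comm, smul_mul_assoc, mul_one, rho_inv]
    · rw [hc, mul_smul_comm, smul_mul_assoc, map_mul, map_mul]
  | n + 1, a, b => fun g x => by
    have ih := FR_eqv hρ hw hc n
    have hA : ∀ i, Eqv ρ ((![FR μ w ρ n (min a (2 ^ n)) (min b (2 ^ n)),
        FR μ w ρ n (a - 2 ^ n) (min b (2 ^ n)), FR μ w ρ n (min a (2 ^ n)) (b - 2 ^ n),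
        FR μ w ρ n (a - 2 ^ n) (b - 2 ^ n)] : Fin 4 → G → 𝔸) i) := by
      intro i
      fin_cases i <;> exact ih _ _
    have hAc : ∀ i, Continuous ((![FR μ w ρ n (min a (2 ^ n)) (min b (2 ^ n)),
        FR μ w ρ n (a - 2 ^ n) (min b (2 ^ n)), FR μ w ρ n (min a (2 ^ n)) (b - 2 ^ n),
        FR μ w ρ n (a - 2 ^ n) (b - 2 ^ n)] : Fin 4 → G → 𝔸) i) := by
      intro i
      fin_cases i <;> exact FR_cont hρ hw n _ _
    unfold FR
    rw [H4_cls hc n, cv4_eqv hAc hA, mul_smul_comm, smul_mul_assoc]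

end fr

section main

variable {G : Type*} [Group G] [TopologicalSpace G] [IsTopologicalGroup G] [CompactSpace G]
  [MeasurableSpace G] [BorelSpace G] [SecondCountableTopology G]
  {μ : Measure G} [IsProbabilityMeasure μ] [μ.IsHaarMeasure] [μ.IsMulRightInvariant]
  [μ.IsInvInvariant]
  {𝔸 : Type*} [NormedRing 𝔸] [NormedAlgebra ℝ 𝔸] [CompleteSpace 𝔸]
  {ρ : G →* 𝔸} {w : G → ℝ}

/-- the variables of a sheet -/
abbrev SV (G : Type*) (n : ℕ) := (Fin 4 → Fin (2 ^ n) → G) × (Fin 4 → IE n → G)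

/-- the boundary of a quarter of a sheet -/
def sb {n : ℕ} (V : BE (n + 1) → G) (m : Fin 4 → Fin (2 ^ n) → G) (q : Fin 4) : BE n → G :=
  Pool.Agent.N989.MK.sub V (fun y => m y.2.1 y.2.2) 0 q

/-- gluing the sheets -/
def glue (G : Type*) [Group G] (n : ℕ) : (Fin 4 → SV G n) →* (IE (n + 1) → G) where
  toFun v := (Sum.elim (fun x => (v x.1).1 x.2.1 x.2.2) (fun x => (v x.1).2 x.2.1 x.2.2) :
    (Fin 4 × Fin 4 × Fin (2 ^ n)) ⊕ (Fin 4 × Fin 4 × IE n) → G)
  map_one' := by
    funext e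
    rcases e with e | e <;> rfl
  map_mul' p q := by
    funext e
    rcases e with e | e <;> rfl

lemma glue_cont (n : ℕ) : Continuous (glue G n) := by
  refine continuous_pi fun e => ?_
  rcases e with ⟨a, b, c⟩ | ⟨a, b, c⟩
  · change Continuous fun v : Fin 4 → SV G n => (v a).1 b c
    fun_prop
  · change Continuous fun v : Fin 4 → SV G n => (v a).2 b c
    fun_prop

lemma glue_surj (n : ℕ) : Function.Surjective (glue G n) := fun I =>
  ⟨fun s => (fun b c => I (.inl (s, b, c)), fun b e => I (.inr (s, b, e))), by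
    funext e
    rcases e with e | e <;> rfl⟩

lemma emb_glue {n : ℕ} (V : BE (n + 1) → G) (v : Fin 4 → SV G n) (s q : Fin 4) :
    (fun e => (Sum.elim V (glue G n v) : Ed (n + 1) → G) (emb s q e)) =
      Sum.elim (sb V (v s).1 q) ((v s).2 q) := by
  have h := emb_elim V (fun y => (v y.1).1 y.2.1 y.2.2) (fun y => (v y.1).2 y.2.1 y.2.2) s q
  refine h.trans ?_
  rfl

instance (n : ℕ) : BorelSpace (SV G n) := by
  have h1 : BorelSpace (Fin 4 → Fin (2 ^ n) → G) := inferInstance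
  have h2 : BorelSpace (Fin 4 → IE n → G) := inferInstance
  have h3 : SecondCountableTopology (Fin 4 → Fin (2 ^ n) → G) := inferInstance
  have h4 : SecondCountableTopology (Fin 4 → IE n → G) := inferInstance
  exact Prod.borelSpace

instance (n : ℕ) : SecondCountableTopology (SV G n) := by
  have h3 : SecondCountableTopology (Fin 4 → Fin (2 ^ n) → G) := inferInstance
  have h4 : SecondCountableTopology (Fin 4 → IE n → G) := inferInstance
  exact inferInstanceAs (SecondCountableTopology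
    ((Fin 4 → Fin (2 ^ n) → G) × (Fin 4 → IE n → G)))

instance (n : ℕ) : BorelSpace (Fin 4 → SV G n) := Pi.borelSpace

/-- the measure on the variables of a sheet -/
def nuS (μ : Measure G) (n : ℕ) : Measure (SV G n) :=
  (Measure.pi fun _ => Measure.pi fun _ => μ).prod (Measure.pi fun _ => Measure.pi fun _ => μ)

instance (n : ℕ) : IsProbabilityMeasure (nuS μ n) := by
  unfold nuS
  infer_instance

instance nuS_inv (n : ℕ) : (nuS μ n).IsMulLeftInvariant := by
  have i1 : (Measure.pi fun _ : Fin (2 ^ n) => μ).IsMulLeftInvariant := inferInstance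
  have i2 : (Measure.pi fun _ : Fin 4 => Measure.pi fun _ : Fin (2 ^ n) =>
      μ).IsMulLeftInvariant := inferInstance
  have i4 : (Measure.pi fun _ : IE n => μ).IsMulLeftInvariant := inferInstance
  have i5 : (Measure.pi fun _ : Fin 4 =>
      Measure.pi fun _ : IE n => μ).IsMulLeftInvariant := inferInstance
  unfold nuS
  exact Measure.prod.instIsMulLeftInvariant

lemma int_glue {n : ℕ} {F : (IE (n + 1) → G) → 𝔸} (hF : Continuous F) :
    ∫ I, F I ∂(Measure.pi fun _ => μ) =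
      ∫ v : Fin 4 → SV G n, F (glue G n v) ∂(Measure.pi fun _ => nuS μ n) := by
  have i1 : (Measure.pi fun _ : Fin 4 => nuS μ n).IsMulLeftInvariant := inferInstance
  exact int_mpA (mp_hom (Measure.pi fun _ : Fin 4 => nuS μ n)
    (Measure.pi fun _ : IE (n + 1) => μ) (glue G n) (glue_cont n) (glue_surj n)) hF

lemma lp_sb {n : ℕ} (V : BE (n + 1) → G) (m : Fin 4 → Fin (2 ^ n) → G) :
    lp (sb V m 0) = hf V 0 0 * mids m 2 * (mids m 0)⁻¹ * (hf V 3 0)⁻¹ ∧
    lp (sb V m 1) = hf V 0 1 * hf V 1 0 * (mids m 1)⁻¹ * (mids m 2)⁻¹ ∧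
    lp (sb V m 2) = mids m 0 * mids m 3 * (hf V 2 0)⁻¹ * (hf V 3 1)⁻¹ ∧
    lp (sb V m 3) = mids m 1 * hf V 1 1 * (hf V 2 1)⁻¹ * (mids m 3)⁻¹ :=
  lp_sub V (fun y => m y.2.1 y.2.2) 0

lemma elim_cont {n : ℕ} (V : BE (n + 1) → G) (q : Fin 4) :
    Continuous fun p : SV G n => (Sum.elim (sb V p.1 q) (p.2 q) : Ed n → G) := by
  refine continuous_pi fun e => ?_
  rcases e with ⟨i, k⟩ | e
  · change Continuous fun p : SV G n => sb V p.1 q (i, k)
    unfold sb Pool.Agent.N989.MK.sub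
    dsimp only
    rcases side q i with ⟨j, h⟩ | j
    · exact continuous_const
    · change Continuous fun p : SV G n => p.1 j k
      fun_prop
  · change Continuous fun p : SV G n => p.2 q e
    fun_prop

lemma elim_cont2 {n : ℕ} (W : BE n → G) :
    Continuous fun I : IE n → G => (Sum.elim W I : Ed n → G) := by
  refine continuous_pi fun e => ?_
  rcases e with e | e
  · exact continuous_const
  · exact continuous_apply e

/-- the weight of a sheet -/
def WS (w : G → ℝ) {n : ℕ} (V : BE (n + 1) → G) (p : SV G n) : ℝ :=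
  ∏ q : Fin 4, wt w (Sum.elim (sb V p.1 q) (p.2 q) : Ed n → G)

lemma WS_cont (hw : Continuous w) {n : ℕ} (V : BE (n + 1) → G) : Continuous (WS w V) :=
  continuous_finsetProd _ fun q _ => (wt_cont hw).comp (elim_cont V q)

lemma int_WS (hw : Continuous w) (hc : Cls w) {n : ℕ} (V : BE (n + 1) → G) :
    ∫ p, WS w V p ∂(nuS μ n) = H4 μ (Zr μ w n) (lp V) := by
  unfold nuS
  rw [integral_prod _ (integrableR (X := SV G n) _ (WS_cont hw V))]
  have h1 : ∀ m : Fin 4 → Fin (2 ^ n) → G, ∫ j : Fin 4 → IE n → G, WS w V (m, j)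
      ∂(Measure.pi fun _ => Measure.pi fun _ => μ) = FF (Zr μ w n) V (mids m) := by
    intro m
    unfold WS
    rw [integral_fintype_prod_eq_prod (fun (q : Fin 4) (I : IE n → G) =>
        wt w (Sum.elim (sb V m q) I : Ed n → G))]
    have h3 : ∀ q : Fin 4, ∫ I : IE n → G, wt w (Sum.elim (sb V m q) I : Ed n → G)
        ∂(Measure.pi fun _ => μ) = Zr μ w n (lp (sb V m q)) := fun q => Zb_eq hw hc n _
    simp only [h3]
    obtain ⟨e0, e1, e2, e3⟩ := lp_sb V m
    rw [Fin.prod_univ_four, e0, e1, e2, e3]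
    rfl
  simp only [h1]
  exact int_FF (Zr_cont hw n) (Zr_cls hc n) V

/-- the matrix valued function of a sheet -/
def ES (ρ : G →* 𝔸) {n : ℕ} (e : Fin 4 → (Ed n → G) → 𝔸) (V : BE (n + 1) → G) (p : SV G n) : 𝔸 :=
  (ρ (hf V 0 0) * e 1 (Sum.elim (sb V p.1 1) (p.2 1)) * ρ (hf V 0 0)⁻¹) *
    e 0 (Sum.elim (sb V p.1 0) (p.2 0)) *
    (ρ (hf V 3 0 * mids p.1 0) * e 3 (Sum.elim (sb V p.1 3) (p.2 3)) *
      ρ (hf V 3 0 * mids p.1 0)⁻¹) *
    (ρ (hf V 3 0) * e 2 (Sum.elim (sb V p.1 2) (p.2 2)) * ρ (hf V 3 0)⁻¹)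

lemma mids_cont {n : ℕ} (j : Fin 4) : Continuous fun m : Fin 4 → Fin (2 ^ n) → G => mids m j :=
  list_cont (X := Fin 4 → Fin (2 ^ n) → G) _ (fun k m => m j k) fun k => by fun_prop

lemma ES_cont (hρ : Continuous ρ) {n : ℕ} {e : Fin 4 → (Ed n → G) → 𝔸}
    (he : ∀ q, Continuous (e q)) (V : BE (n + 1) → G) : Continuous (ES ρ e V) := by
  have h1 : ∀ q, Continuous fun p : SV G n => e q (Sum.elim (sb V p.1 q) (p.2 q)) := fun q =>
    (he q).comp (elim_cont V q)
  have h2 : Continuous fun p : SV G n => mids p.1 0 := (mids_cont 0).comp continuous_fst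
  unfold ES
  have h3 : Continuous fun p : SV G n => ρ (hf V 3 0 * mids p.1 0) :=
    hρ.comp (continuous_const.mul h2)
  have h4 : Continuous fun p : SV G n => ρ (hf V 3 0 * mids p.1 0)⁻¹ :=
    hρ.comp (continuous_const.mul h2).inv
  exact ((((continuous_const.mul (h1 1)).mul continuous_const).mul (h1 0)).mul
    ((h3.mul (h1 3)).mul h4)).mul ((continuous_const.mul (h1 2)).mul continuous_const)

lemma int_ES (hρ : Continuous ρ) {n : ℕ} {e : Fin 4 → (Ed n → G) → 𝔸}
    (he : ∀ q, Continuous (e q)) {A : Fin 4 → G → 𝔸} (hA : ∀ q, Continuous (A q))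
    (hAe : ∀ q, Eqv ρ (A q))
    (h : ∀ q (W : BE n → G), ∫ I : IE n → G, e q (Sum.elim W I) ∂(Measure.pi fun _ => μ) =
      A q (lp W)) (V : BE (n + 1) → G) :
    ∫ p, ES ρ e V p ∂(nuS μ n) = cv4 μ A (lp V) := by
  unfold nuS
  rw [integral_prod _ (integrableA (X := SV G n) _ (ES_cont hρ he V))]
  set Sh : (Fin 4 → G) → 𝔸 := fun m =>
    (ρ (hf V 0 0) * A 1 (hf V 0 1 * hf V 1 0 * (m 1)⁻¹ * (m 2)⁻¹) * ρ (hf V 0 0)⁻¹) *
      A 0 (hf V 0 0 * m 2 * (m 0)⁻¹ * (hf V 3 0)⁻¹) *
      (ρ (hf V 3 0 * m 0) * A 3 (m 1 * hf V 1 1 * (hf V 2 1)⁻¹ * (m 3)⁻¹) *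
        ρ (hf V 3 0 * m 0)⁻¹) *
      (ρ (hf V 3 0) * A 2 (m 0 * m 3 * (hf V 2 0)⁻¹ * (hf V 3 1)⁻¹) * ρ (hf V 3 0)⁻¹) with hSh
  have hA0 := hA 0
  have hA1 := hA 1
  have hA2 := hA 2
  have hA3 := hA 3
  have hShc : Continuous Sh := by
    rw [hSh]
    have h3 : Continuous fun m : Fin 4 → G => ρ (hf V 3 0 * m 0) :=
      hρ.comp (continuous_const.mul (continuous_apply 0))
    have h4 : Continuous fun m : Fin 4 → G => ρ (hf V 3 0 * m 0)⁻¹ :=
      hρ.comp (continuous_const.mul (continuous_apply 0)).inv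
    fun_prop
  have h1 : ∀ m : Fin 4 → Fin (2 ^ n) → G, ∫ j : Fin 4 → IE n → G, ES ρ e V (m, j)
      ∂(Measure.pi fun _ => Measure.pi fun _ => μ) = Sh (mids m) := by
    intro m
    have hc : ∀ q, Continuous fun I : IE n → G => e q (Sum.elim (sb V m q) I) := fun q =>
      (he q).comp (elim_cont2 _)
    unfold ES
    dsimp only
    rw [int_four (Measure.pi fun _ : IE n => μ)
      (F1 := fun I => ρ (hf V 0 0) * e 1 (Sum.elim (sb V m 1) I) * ρ (hf V 0 0)⁻¹)
      (F0 := fun I => e 0 (Sum.elim (sb V m 0) I))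
      (F3 := fun I => ρ (hf V 3 0 * mids m 0) * e 3 (Sum.elim (sb V m 3) I) *
        ρ (hf V 3 0 * mids m 0)⁻¹)
      (F2 := fun I => ρ (hf V 3 0) * e 2 (Sum.elim (sb V m 2) I) * ρ (hf V 3 0)⁻¹)
      (hc 0) ((continuous_const.mul (hc 1)).mul continuous_const)
      ((continuous_const.mul (hc 2)).mul continuous_const)
      ((continuous_const.mul (hc 3)).mul continuous_const)]
    rw [int_conj _ (hc 1), int_conj _ (hc 3), int_conj _ (hc 2), h, h, h, h]
    obtain ⟨e0, e1, e2, e3⟩ := lp_sb V m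
    rw [e0, e1, e2, e3]
  simp only [h1]
  have i2 : (Measure.pi fun _ : Fin 4 => Measure.pi fun _ : Fin (2 ^ n) =>
      μ).IsMulLeftInvariant := inferInstance
  rw [← int_mpA (mp_mids (μ := μ) n) hShc, hSh, sheetA hA hAe]
  unfold Pool.Agent.N989.MK.lp
  rw [sd_eq, sd_eq, sd_eq, sd_eq]

lemma rho_split (ρ : G →* 𝔸) (S0 R1 R0 T R3 S3 R2 : G) (c0 c1 c2 c3 : ℝ) :
    (c0 * c1 * c2 * c3) • ρ ((S0 * R1 * S0⁻¹) * R0 * (T * R3 * T⁻¹) * (S3 * R2 * S3⁻¹)) =
      (ρ S0 * (c1 • ρ R1) * ρ S0⁻¹) * (c0 • ρ R0) * (ρ T * (c3 • ρ R3) * ρ T⁻¹) *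
        (ρ S3 * (c2 • ρ R2) * ρ S3⁻¹) := by
  simp only [map_mul, smul_mul_assoc, mul_smul_comm, smul_smul]
  congr 1
  ring

theorem decim (hR : RectSucc G) (hρ : Continuous ρ) (hw : Continuous w) (hc : Cls w) :
    ∀ (n : ℕ) (σ : Sec n) (a b : ℕ), a ≤ 2 ^ n → b ≤ 2 ^ n → ∀ V : BE n → G,
    ∫ I : IE n → G, wt w (Sum.elim V I : Ed n → G) •
      ρ (rect n σ (Sum.elim V I : Ed n → G) a b) ∂(Measure.pi fun _ => μ) =
    FR μ w ρ n a b (lp V)
  | 0, σ, a, b, ha, hb, V => by
    have hI : IsEmpty (IE 0) := inferInstanceAs (IsEmpty Empty)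
    have h3 : ∀ i : Fin 4, sd V i = V (i, 0) := by
      intro i
      change (List.ofFn fun k : Fin 1 => V (i, k)).prod = _
      simp
    have h1 : ∀ I : IE 0 → G, wt w (Sum.elim V I : Ed 0 → G) = w (lp V) := by
      intro I
      have h2 : lp V = hol (Sum.elim V I : Ed 0 → G) (() : Pq 0) := by
        change _ = V (0, 0) * V (1, 0) * (V (2, 0))⁻¹ * (V (3, 0))⁻¹
        unfold Pool.Agent.N989.MK.lp
        rw [h3, h3, h3, h3]
      rw [h2]
      unfold wt
      exact Fintype.prod_unique (ι := Unit) fun p => w (hol (Sum.elim V I : Ed 0 → G) (p : Pq 0))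
    have h4 : ∀ I : IE 0 → G, rect 0 σ (Sum.elim V I : Ed 0 → G) a b =
        if a = 0 ∨ b = 0 then 1 else lp V := by
      intro I
      have ha1 : a = 0 ∨ a = 1 := by
        have : a ≤ 1 := by simpa using ha
        omega
      have hb1 : b = 0 ∨ b = 1 := by
        have : b ≤ 1 := by simpa using hb
        omega
      rcases ha1 with rfl | rfl
      · rcases hb1 with rfl | rfl
        · simp [rect, hp, vp]
        · simp [rect, hp, vp]
      · rcases hb1 with rfl | rfl
        · simp [rect, hp, vp]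
        · simp only [rect, hp, vp, one_ne_zero, or_self, if_false, if_true]
          unfold Pool.Agent.N989.MK.lp
          rw [h3, h3, h3, h3]
          rfl
    simp only [h1, h4]
    rw [integral_const]
    simp only [probReal_univ, one_smul]
    unfold FR
    split_ifs
    · rw [map_one]
    · rfl
  | n + 1, (s, σ), a, b, ha, hb, V => by
    have ih := decim hR hρ hw hc n
    have hpow : 2 ^ (n + 1) = 2 ^ n + 2 ^ n := by rw [pow_succ]; omega
    set e : Fin 4 → (Ed n → G) → 𝔸 := ![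
      fun U => wt w U • ρ (rect n (σ 0) U (min a (2 ^ n)) (min b (2 ^ n))),
      fun U => wt w U • ρ (rect n (σ 1) U (a - 2 ^ n) (min b (2 ^ n))),
      fun U => wt w U • ρ (rect n (σ 2) U (min a (2 ^ n)) (b - 2 ^ n)),
      fun U => wt w U • ρ (rect n (σ 3) U (a - 2 ^ n) (b - 2 ^ n))] with he
    set A : Fin 4 → G → 𝔸 := ![FR μ w ρ n (min a (2 ^ n)) (min b (2 ^ n)),
        FR μ w ρ n (a - 2 ^ n) (min b (2 ^ n)), FR μ w ρ n (min a (2 ^ n)) (b - 2 ^ n),
        FR μ w ρ n (a - 2 ^ n) (b - 2 ^ n)] with hA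
    have hec : ∀ q, Continuous (e q) := by
      intro q
      fin_cases q
      · exact (wt_cont hw).smul (hρ.comp (rect_cont n _ _ _))
      · exact (wt_cont hw).smul (hρ.comp (rect_cont n _ _ _))
      · exact (wt_cont hw).smul (hρ.comp (rect_cont n _ _ _))
      · exact (wt_cont hw).smul (hρ.comp (rect_cont n _ _ _))
    have hAc : ∀ q, Continuous (A q) := by
      intro q
      fin_cases q <;> exact FR_cont hρ hw n _ _
    have hAe : ∀ q, Eqv ρ (A q) := by
      intro q
      fin_cases q <;> exact FR_eqv hρ hw hc n _ _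
    have hint : ∀ q (W : BE n → G), ∫ I : IE n → G, e q (Sum.elim W I)
        ∂(Measure.pi fun _ => μ) = A q (lp W) := by
      intro q W
      fin_cases q
      · exact ih (σ 0) _ _ (min_le_right _ _) (min_le_right _ _) W
      · exact ih (σ 1) _ _ (by omega) (min_le_right _ _) W
      · exact ih (σ 2) _ _ (min_le_right _ _) (by omega) W
      · exact ih (σ 3) _ _ (by omega) (by omega) W
    have hFc : Continuous fun I : IE (n + 1) → G => wt w (Sum.elim V I : Ed (n + 1) → G) •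
        ρ (rect (n + 1) (s, σ) (Sum.elim V I : Ed (n + 1) → G) a b) :=
      ((wt_cont hw).comp (elim_cont2 V)).smul
        (hρ.comp ((rect_cont (n + 1) (s, σ) a b).comp (elim_cont2 V)))
    rw [int_glue hFc]
    have hsplit : ∀ v : Fin 4 → SV G n, wt w (Sum.elim V (glue G n v) : Ed (n + 1) → G) •
        ρ (rect (n + 1) (s, σ) (Sum.elim V (glue G n v) : Ed (n + 1) → G) a b) =
        (∏ j : Fin 3, WS w V (v (s.succAbove j))) • ES ρ e V (v s) := by
      intro v
      have h1 : wt w (Sum.elim V (glue G n v) : Ed (n + 1) → G) =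
          (∏ j : Fin 3, WS w V (v (s.succAbove j))) * WS w V (v s) := by
        rw [wt_quarters, Fintype.prod_prod_type]
        simp only [emb_glue]
        rw [Fin.prod_univ_succAbove _ s, mul_comm]
        rfl
      rw [h1, mul_smul]
      congr 1
      rw [hR n s σ _ a b ha hb]
      have e0 := emb_glue V v s 0
      have e1 := emb_glue V v s 1
      have e2 := emb_glue V v s 2
      have e3 := emb_glue V v s 3
      have f0 : (fun e => (Sum.elim V (glue G n v) : Ed (n + 1) → G) (emb s 0 (.inl e))) =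
          sb V (v s).1 0 := by
        funext x
        exact congrFun e0 (.inl x)
      rw [e0, e1, e2, e3, f0]
      unfold WS
      rw [Fin.prod_univ_four, rho_split]
      rfl
    simp only [hsplit]
    rw [int_one (k := 3) (nuS μ n) s (fun _ => WS_cont hw V) (ES_cont hρ hec V),
      int_ES hρ hec hAc hAe hint V]
    simp only [int_WS hw hc V]
    rw [Finset.prod_const, Finset.card_univ, Fintype.card_fin]
    rfl

end main

/-- Task M. -/
theorem taskM {G : Type*} [Group G] [TopologicalSpace G] [IsTopologicalGroup G] [CompactSpace G]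
    [MeasurableSpace G] [BorelSpace G] [SecondCountableTopology G]
    {𝔸 : Type*} [NormedRing 𝔸] [NormedAlgebra ℝ 𝔸] [CompleteSpace 𝔸] (hR : RectSucc G) :
    TaskM G 𝔸 := by
  intro μ _ _ _ _ ρ w hρ hw hc
  exact ⟨FR_cont hρ hw, FR_eqv hρ hw hc, decim hR hρ hw hc⟩

end

end Pool.Agent.N558.HC
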