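import Mathlib
import Pool.Agent.N989.MK.Part2
import Pool.Agent.N541.HC.Stm2

/-!
# Convolutions of functions with values in a Banach algebra: the sheet formula (helper558)
-/

open MeasureTheory Pool.Agent.N991.MK
open Pool.Agent.N989.MK Pool.Agent.N541.HC

namespace Pool.Agent.N558.HC

set_option linter.unusedSectionVars false

noncomputable section

section general

variable {X Y : Type*} [TopologicalSpace X] [CompactSpace X] [SecondCountableTopology X]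
  [MeasurableSpace X] [BorelSpace X] [TopologicalSpace Y] [CompactSpace Y]
  [SecondCountableTopology Y] [MeasurableSpace Y] [BorelSpace Y]
  {𝔸 : Type*} [NormedRing 𝔸] [NormedAlgebra ℝ 𝔸] [CompleteSpace 𝔸]

lemma integrableA (ν : Measure X) [IsFiniteMeasure ν] {f : X → 𝔸} (hf : Continuous f) :
    Integrable f ν :=
  hf.integrable_of_hasCompactSupport (HasCompactSupport.of_compactSpace _)

lemma integrableR (ν : Measure X) [IsFiniteMeasure ν] {f : X → ℝ} (hf : Continuous f) :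
    Integrable f ν :=
  hf.integrable_of_hasCompactSupport (HasCompactSupport.of_compactSpace _)

lemma int_cm (ν : Measure X) [IsFiniteMeasure ν] {f : X → 𝔸} (hf : Continuous f) (c : 𝔸) :
    ∫ x, c * f x ∂ν = c * ∫ x, f x ∂ν :=
  integral_const_mul_of_integrable (integrableA ν hf)

lemma int_mc (ν : Measure X) [IsFiniteMeasure ν] {f : X → 𝔸} (hf : Continuous f) (c : 𝔸) :
    ∫ x, f x * c ∂ν = (∫ x, f x ∂ν) * c :=
  integral_mul_const_of_integrable (integrableA ν hf)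

lemma int_conj (ν : Measure X) [IsFiniteMeasure ν] {f : X → 𝔸} (hf : Continuous f) (c d : 𝔸) :
    ∫ x, c * f x * d ∂ν = c * (∫ x, f x ∂ν) * d := by
  rw [int_mc ν (f := fun x => c * f x) (continuous_const.mul hf), int_cm ν hf]

/-- Integral of a product over a product space. -/
lemma int_prod_mul (ν : Measure X) (ν' : Measure Y) [IsProbabilityMeasure ν]
    [IsProbabilityMeasure ν'] {f : X → 𝔸} {g : Y → 𝔸} (hf : Continuous f) (hg : Continuous g) :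
    ∫ p : X × Y, f p.1 * g p.2 ∂(ν.prod ν') = (∫ x, f x ∂ν) * ∫ y, g y ∂ν' := by
  have hc : Continuous fun p : X × Y => f p.1 * g p.2 :=
    (hf.comp continuous_fst).mul (hg.comp continuous_snd)
  rw [integral_prod _ (integrableA _ hc)]
  have h1 : ∀ x, ∫ y, f x * g y ∂ν' = f x * ∫ y, g y ∂ν' := fun x => int_cm ν' hg _
  simp only [h1]
  exact int_mc ν hf _

lemma int_prod_smul (ν : Measure X) (ν' : Measure Y) [IsProbabilityMeasure ν]
    [IsProbabilityMeasure ν'] {f : X → 𝔸} {g : Y → ℝ} (hf : Continuous f) (hg : Continuous g) :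
    ∫ p : X × Y, g p.2 • f p.1 ∂(ν.prod ν') = (∫ y, g y ∂ν') • ∫ x, f x ∂ν := by
  have hc : Continuous fun p : X × Y => g p.2 • f p.1 :=
    (hg.comp continuous_snd).smul (hf.comp continuous_fst)
  rw [integral_prod _ (integrableA _ hc)]
  have h1 : ∀ x, ∫ y, g y • f x ∂ν' = (∫ y, g y ∂ν') • f x := fun x => integral_smul_const _ _
  simp only [h1]
  exact integral_smul _ _

/-- One noncommutative factor and real factors. -/
lemma int_one {k : ℕ} (ν : Measure X) [IsProbabilityMeasure ν] (i0 : Fin (k + 1))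
    {f : Fin k → X → ℝ} (hf : ∀ j, Continuous (f j)) {g : X → 𝔸} (hg : Continuous g) :
    ∫ v : Fin (k + 1) → X, (∏ j : Fin k, f j (v (i0.succAbove j))) • g (v i0)
      ∂(Measure.pi fun _ => ν) = (∏ j : Fin k, ∫ x, f j x ∂ν) • ∫ x, g x ∂ν := by
  have hmp := measurePreserving_piFinSuccAbove (α := fun _ : Fin (k + 1) => X) (fun _ => ν) i0
  have h1 := hmp.integral_comp' (fun p : X × (Fin k → X) => (∏ j : Fin k, f j (p.2 j)) • g p.1)
  have h2 : ∀ v : Fin (k + 1) → X, (fun p : X × (Fin k → X) => (∏ j : Fin k, f j (p.2 j)) • g p.1)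
      (MeasurableEquiv.piFinSuccAbove (fun _ : Fin (k + 1) => X) i0 v) =
      (∏ j : Fin k, f j (v (i0.succAbove j))) • g (v i0) := fun v => rfl
  simp only [h2] at h1
  rw [h1]
  have hfc : Continuous fun v : Fin k → X => ∏ j : Fin k, f j (v j) :=
    continuous_finsetProd _ fun j _ => (hf j).comp (continuous_apply j)
  rw [int_prod_smul ν (Measure.pi fun _ : Fin k => ν) hg hfc]
  rw [integral_fintype_prod_eq_prod (fun (j : Fin k) (x : X) => f j x)]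

end general

section groups

variable {H H' : Type*} [Group H] [TopologicalSpace H] [IsTopologicalGroup H] [CompactSpace H]
  [MeasurableSpace H] [BorelSpace H] [Group H'] [TopologicalSpace H'] [IsTopologicalGroup H']
  [CompactSpace H'] [MeasurableSpace H'] [BorelSpace H']
  {ν : Measure H} [IsProbabilityMeasure ν] [ν.IsMulLeftInvariant]
  {ν' : Measure H'} [IsProbabilityMeasure ν'] [ν'.IsHaarMeasure]
  {𝔸 : Type*} [NormedRing 𝔸] [NormedAlgebra ℝ 𝔸] [CompleteSpace 𝔸]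

lemma int_mpA [SecondCountableTopology H'] {φ : H → H'} (h : MeasurePreserving φ ν ν')
    {F : H' → 𝔸} (hF : Continuous F) : ∫ x, F x ∂ν' = ∫ x, F (φ x) ∂ν := by
  rw [← h.map_eq, integral_map h.measurable.aemeasurable]
  exact hF.aestronglyMeasurable

/-- The coordinates `1, 0, 3, 2`. -/
def co4 (K : Type*) [Group K] : K × (K × (K × K)) →* (Fin 4 → K) where
  toFun p := ![p.2.1, p.1, p.2.2.2, p.2.2.1]
  map_one' := by
    funext i
    fin_cases i <;> rfl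
  map_mul' p q := by
    funext i
    fin_cases i <;> rfl

lemma co4_cont (K : Type*) [Group K] [TopologicalSpace K] : Continuous (co4 K) := by
  refine continuous_pi fun i => ?_
  fin_cases i
  · exact continuous_fst.comp continuous_snd
  · exact continuous_fst
  · exact (continuous_snd.comp continuous_snd).comp continuous_snd
  · exact (continuous_fst.comp continuous_snd).comp continuous_snd

lemma co4_surj (K : Type*) [Group K] : Function.Surjective (co4 K) := fun m =>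
  ⟨(m 1, m 0, m 3, m 2), by
    funext i
    fin_cases i <;> rfl⟩

variable {K : Type*} [Group K] [TopologicalSpace K] [IsTopologicalGroup K] [CompactSpace K]
  [MeasurableSpace K] [BorelSpace K] [SecondCountableTopology K] (κ : Measure K)
  [IsProbabilityMeasure κ] [κ.IsHaarMeasure]

lemma int_co4 {F : (Fin 4 → K) → 𝔸} (hF : Continuous F) :
    ∫ m, F m ∂(Measure.pi fun _ => κ) =
      ∫ p, F (co4 K p) ∂(κ.prod (κ.prod (κ.prod κ))) := by
  have i3 : (κ.prod (κ.prod κ)).IsMulLeftInvariant := inferInstance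
  have i4 : (κ.prod (κ.prod (κ.prod κ))).IsMulLeftInvariant :=
    Measure.prod.instIsMulLeftInvariant
  exact int_mpA (mp_hom (κ.prod (κ.prod (κ.prod κ))) (Measure.pi fun _ : Fin 4 => κ) (co4 K)
    (co4_cont K) (co4_surj K)) hF

/-- The coordinates `0, 1, 2, 3`. -/
def coI (K : Type*) [Group K] : K × (K × (K × K)) →* (Fin 4 → K) where
  toFun p := ![p.1, p.2.1, p.2.2.1, p.2.2.2]
  map_one' := by
    funext i
    fin_cases i <;> rfl
  map_mul' p q := by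
    funext i
    fin_cases i <;> rfl

lemma coI_cont (K : Type*) [Group K] [TopologicalSpace K] : Continuous (coI K) := by
  refine continuous_pi fun i => ?_
  fin_cases i
  · exact continuous_fst
  · exact continuous_fst.comp continuous_snd
  · exact (continuous_fst.comp continuous_snd).comp continuous_snd
  · exact (continuous_snd.comp continuous_snd).comp continuous_snd

lemma coI_surj (K : Type*) [Group K] : Function.Surjective (coI K) := fun m =>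
  ⟨(m 0, m 1, m 2, m 3), by
    funext i
    fin_cases i <;> rfl⟩

lemma int_coI {F : (Fin 4 → K) → 𝔸} (hF : Continuous F) :
    ∫ m, F m ∂(Measure.pi fun _ => κ) =
      ∫ p, F (coI K p) ∂(κ.prod (κ.prod (κ.prod κ))) := by
  have i3 : (κ.prod (κ.prod κ)).IsMulLeftInvariant := inferInstance
  have i4 : (κ.prod (κ.prod (κ.prod κ))).IsMulLeftInvariant :=
    Measure.prod.instIsMulLeftInvariant
  exact int_mpA (mp_hom (κ.prod (κ.prod (κ.prod κ))) (Measure.pi fun _ : Fin 4 => κ) (coI K)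
    (coI_cont K) (coI_surj K)) hF

/-- Integral of a product of four noncommuting functions. -/
lemma int_four {F0 F1 F2 F3 : K → 𝔸} (h0 : Continuous F0) (h1 : Continuous F1)
    (h2 : Continuous F2) (h3 : Continuous F3) :
    ∫ j : Fin 4 → K, F1 (j 1) * F0 (j 0) * F3 (j 3) * F2 (j 2) ∂(Measure.pi fun _ => κ) =
      (∫ x, F1 x ∂κ) * (∫ x, F0 x ∂κ) * (∫ x, F3 x ∂κ) * ∫ x, F2 x ∂κ := by
  have hc : Continuous fun j : Fin 4 → K => F1 (j 1) * F0 (j 0) * F3 (j 3) * F2 (j 2) := by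
    fun_prop
  rw [int_co4 κ hc]
  have e : ∀ p : K × (K × (K × K)), F1 (co4 K p 1) * F0 (co4 K p 0) * F3 (co4 K p 3) *
      F2 (co4 K p 2) = F1 p.1 * (F0 p.2.1 * (F3 p.2.2.1 * F2 p.2.2.2)) := by
    intro p
    change F1 p.1 * F0 p.2.1 * F3 p.2.2.1 * F2 p.2.2.2 = _
    simp only [mul_assoc]
  simp only [e]
  rw [int_prod_mul κ (κ.prod (κ.prod κ)) h1 (g := fun q : K × (K × K) =>
      F0 q.1 * (F3 q.2.1 * F2 q.2.2)) (by fun_prop),
    int_prod_mul κ (κ.prod κ) h0 (g := fun q : K × K => F3 q.1 * F2 q.2) (by fun_prop),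
    int_prod_mul κ κ h3 h2]
  simp only [mul_assoc]

end groups

section conv

variable {G : Type*} [Group G] [TopologicalSpace G] [IsTopologicalGroup G] [CompactSpace G]
  [MeasurableSpace G] [BorelSpace G] [SecondCountableTopology G]
  {μ : Measure G} [IsProbabilityMeasure μ] [μ.IsHaarMeasure] [μ.IsMulRightInvariant]
  [μ.IsInvInvariant]
  {𝔸 : Type*} [NormedRing 𝔸] [NormedAlgebra ℝ 𝔸] [CompleteSpace 𝔸]

lemma cv_cont {f g : G → 𝔸} (hf : Continuous f) (hg : Continuous g) : Continuous (cv μ f g) := by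
  unfold cv
  have h := continuous_parametric_integral_of_continuous (μ := μ)
    (f := fun (x y : G) => f y * g (y⁻¹ * x)) (s := Set.univ) (by
      refine (hf.comp continuous_snd).mul (hg.comp ?_)
      exact (continuous_snd.inv).mul continuous_fst) isCompact_univ
  simpa using h

lemma cv_eqv {ρ : G →* 𝔸} {f g : G → 𝔸} (hf : Continuous f) (hg : Continuous g)
    (hfe : Eqv ρ f) (hge : Eqv ρ g) : Eqv ρ (cv μ f g) := by
  intro h x
  unfold cv
  have hc : Continuous fun y => f y * g (y⁻¹ * x) :=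
    hf.mul (hg.comp (continuous_inv.mul continuous_const))
  rw [← int_conj μ hc, ← integral_mul_left_eq_self (μ := μ)
    (fun y => f y * g (y⁻¹ * (h * x * h⁻¹))) h, ← integral_mul_right_eq_self (μ := μ) _ h⁻¹]
  refine integral_congr_ae (Filter.Eventually.of_forall fun y => ?_)
  beta_reduce
  have h1 : h * (y * h⁻¹) = h * y * h⁻¹ := by group
  have h2 : (h * (y * h⁻¹))⁻¹ * (h * x * h⁻¹) = h * (y⁻¹ * x) * h⁻¹ := by group
  have h3 : ρ h⁻¹ * ρ h = 1 := by rw [← map_mul, inv_mul_cancel, map_one]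
  rw [h2, h1, hfe, hge]
  calc ρ h * f y * ρ h⁻¹ * (ρ h * g (y⁻¹ * x) * ρ h⁻¹)
      = ρ h * f y * (ρ h⁻¹ * ρ h) * g (y⁻¹ * x) * ρ h⁻¹ := by simp only [mul_assoc]
    _ = _ := by rw [h3, mul_one]; simp only [mul_assoc]

/-- A convolution after a change of the variable. -/
lemma cv_shift (f k : G → 𝔸) (g h x : G) :
    ∫ c, f (g * c⁻¹ * h) * k ((g * c⁻¹ * h)⁻¹ * x) ∂μ = cv μ f k x := by
  unfold cv
  set F : G → 𝔸 := fun y => f y * k (y⁻¹ * x) with hF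
  have h1 : ∫ y, F (g * y) ∂μ = ∫ y, F y ∂μ := integral_mul_left_eq_self (μ := μ) F g
  have h2 : ∫ y, F (g * (y * h)) ∂μ = ∫ y, F (g * y) ∂μ :=
    integral_mul_right_eq_self (μ := μ) (fun y => F (g * y)) h
  have h3 : ∫ y, F (g * (y⁻¹ * h)) ∂μ = ∫ y, F (g * (y * h)) ∂μ :=
    integral_inv_eq_self (μ := μ) (fun y => F (g * (y * h)))
  rw [← h1, ← h2, ← h3]
  refine integral_congr_ae (Filter.Eventually.of_forall fun y => ?_)
  change F (g * y⁻¹ * h) = F (g * (y⁻¹ * h))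
  rw [mul_assoc]

lemma cv4_cont {A : Fin 4 → G → 𝔸} (hA : ∀ i, Continuous (A i)) : Continuous (cv4 μ A) :=
  cv_cont (cv_cont (hA 1) (hA 0)) (cv_cont (hA 3) (hA 2))

lemma cv4_eqv {ρ : G →* 𝔸} {A : Fin 4 → G → 𝔸} (hA : ∀ i, Continuous (A i))
    (hE : ∀ i, Eqv ρ (A i)) : Eqv ρ (cv4 μ A) :=
  cv_eqv (cv_cont (hA 1) (hA 0)) (cv_cont (hA 3) (hA 2)) (cv_eqv (hA 1) (hA 0) (hE 1) (hE 0))
    (cv_eqv (hA 3) (hA 2) (hE 3) (hE 2))

/-- The integral over the variables of the four middle paths of a sheet. -/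
lemma sheetA {ρ : G →* 𝔸} {A : Fin 4 → G → 𝔸} (hA : ∀ i, Continuous (A i))
    (hE : ∀ i, Eqv ρ (A i)) (b1 b2 r1 r2 t1 t2 l1 l2 : G) :
    ∫ m : Fin 4 → G, (ρ b1 * A 1 (b2 * r1 * (m 1)⁻¹ * (m 2)⁻¹) * ρ b1⁻¹) *
      A 0 (b1 * m 2 * (m 0)⁻¹ * l1⁻¹) *
      (ρ (l1 * m 0) * A 3 (m 1 * r2 * t2⁻¹ * (m 3)⁻¹) * ρ (l1 * m 0)⁻¹) *
      (ρ l1 * A 2 (m 0 * m 3 * t1⁻¹ * l2⁻¹) * ρ l1⁻¹) ∂(Measure.pi fun _ => μ) =
    cv4 μ A ((b1 * b2) * (r1 * r2) * (t1 * t2)⁻¹ * (l1 * l2)⁻¹) := by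
  have hA0 := hA 0
  have hA1 := hA 1
  have hA2 := hA 2
  have hA3 := hA 3
  set x : G := (b1 * b2) * (r1 * r2) * (t1 * t2)⁻¹ * (l1 * l2)⁻¹ with hx
  have e : ∀ m : Fin 4 → G, (ρ b1 * A 1 (b2 * r1 * (m 1)⁻¹ * (m 2)⁻¹) * ρ b1⁻¹) *
      A 0 (b1 * m 2 * (m 0)⁻¹ * l1⁻¹) *
      (ρ (l1 * m 0) * A 3 (m 1 * r2 * t2⁻¹ * (m 3)⁻¹) * ρ (l1 * m 0)⁻¹) *
      (ρ l1 * A 2 (m 0 * m 3 * t1⁻¹ * l2⁻¹) * ρ l1⁻¹) =
      (A 1 (b1 * (b2 * r1 * (m 1)⁻¹ * (m 2)⁻¹) * b1⁻¹) * A 0 (b1 * m 2 * (m 0)⁻¹ * l1⁻¹)) *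
      (A 3 ((l1 * m 0) * (m 1 * r2 * t2⁻¹ * (m 3)⁻¹) * (l1 * m 0)⁻¹) *
      A 2 (l1 * (m 0 * m 3 * t1⁻¹ * l2⁻¹) * l1⁻¹)) := by
    intro m
    rw [hE 1 b1, hE 3 (l1 * m 0), hE 2 l1]
    simp only [mul_assoc]
  simp only [e]
  have hc : Continuous fun m : Fin 4 → G =>
      (A 1 (b1 * (b2 * r1 * (m 1)⁻¹ * (m 2)⁻¹) * b1⁻¹) * A 0 (b1 * m 2 * (m 0)⁻¹ * l1⁻¹)) *
      (A 3 ((l1 * m 0) * (m 1 * r2 * t2⁻¹ * (m 3)⁻¹) * (l1 * m 0)⁻¹) *
      A 2 (l1 * (m 0 * m 3 * t1⁻¹ * l2⁻¹) * l1⁻¹)) := by fun_prop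
  rw [int_coI μ hc]
  set Φ : G × (G × (G × G)) → 𝔸 := fun p =>
      (A 1 (b1 * (b2 * r1 * p.2.1⁻¹ * p.2.2.1⁻¹) * b1⁻¹) * A 0 (b1 * p.2.2.1 * p.1⁻¹ * l1⁻¹)) *
      (A 3 ((l1 * p.1) * (p.2.1 * r2 * t2⁻¹ * p.2.2.2⁻¹) * (l1 * p.1)⁻¹) *
      A 2 (l1 * (p.1 * p.2.2.2 * t1⁻¹ * l2⁻¹) * l1⁻¹)) with hΦ
  have hΦc : Continuous Φ := by
    rw [hΦ]
    fun_prop
  change ∫ p, Φ p ∂(μ.prod (μ.prod (μ.prod μ))) = _
  rw [integral_prod _ (integrableA _ hΦc)]
  have h2 : ∀ a b : G, ∫ p : G × G, Φ (a, (b, p)) ∂(μ.prod μ) =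
      cv μ (A 1) (A 0) (b1 * b2 * r1 * b⁻¹ * (a⁻¹ * l1⁻¹)) *
        cv μ (A 3) (A 2) ((b1 * b2 * r1 * b⁻¹ * (a⁻¹ * l1⁻¹))⁻¹ * x) := by
    intro a b
    change ∫ p : G × G, (fun c => A 1 (b1 * (b2 * r1 * b⁻¹ * c⁻¹) * b1⁻¹) *
      A 0 (b1 * c * a⁻¹ * l1⁻¹)) p.1 * (fun d => A 3 ((l1 * a) * (b * r2 * t2⁻¹ * d⁻¹) *
      (l1 * a)⁻¹) * A 2 (l1 * (a * d * t1⁻¹ * l2⁻¹) * l1⁻¹)) p.2 ∂(μ.prod μ) = _
    rw [int_prod_mul μ μ (f := fun c => A 1 (b1 * (b2 * r1 * b⁻¹ * c⁻¹) * b1⁻¹) *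
      A 0 (b1 * c * a⁻¹ * l1⁻¹)) (g := fun d => A 3 ((l1 * a) * (b * r2 * t2⁻¹ * d⁻¹) *
      (l1 * a)⁻¹) * A 2 (l1 * (a * d * t1⁻¹ * l2⁻¹) * l1⁻¹)) (by fun_prop) (by fun_prop)]
    congr 1
    · rw [← cv_shift (μ := μ) (A 1) (A 0) (b1 * b2 * r1 * b⁻¹) b1⁻¹]
      refine integral_congr_ae (Filter.Eventually.of_forall fun c => ?_)
      beta_reduce
      have e1 : b1 * (b2 * r1 * b⁻¹ * c⁻¹) * b1⁻¹ = b1 * b2 * r1 * b⁻¹ * c⁻¹ * b1⁻¹ := by group
      have e2 : b1 * c * a⁻¹ * l1⁻¹ = (b1 * b2 * r1 * b⁻¹ * c⁻¹ * b1⁻¹)⁻¹ *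
          (b1 * b2 * r1 * b⁻¹ * (a⁻¹ * l1⁻¹)) := by group
      rw [e1, e2]
    · rw [← cv_shift (μ := μ) (A 3) (A 2) (l1 * a * b * r2 * t2⁻¹) (a⁻¹ * l1⁻¹)]
      refine integral_congr_ae (Filter.Eventually.of_forall fun d => ?_)
      beta_reduce
      have e1 : (l1 * a) * (b * r2 * t2⁻¹ * d⁻¹) * (l1 * a)⁻¹ =
          l1 * a * b * r2 * t2⁻¹ * d⁻¹ * (a⁻¹ * l1⁻¹) := by group
      have e2 : l1 * (a * d * t1⁻¹ * l2⁻¹) * l1⁻¹ =
          (l1 * a * b * r2 * t2⁻¹ * d⁻¹ * (a⁻¹ * l1⁻¹))⁻¹ *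
            ((b1 * b2 * r1 * b⁻¹ * (a⁻¹ * l1⁻¹))⁻¹ * x) := by
        rw [hx]
        group
      rw [e1, e2]
  have h3 : ∀ a : G, ∫ q : G × (G × G), Φ (a, q) ∂(μ.prod (μ.prod μ)) = cv4 μ A x := by
    intro a
    have hc1 : Continuous fun q : G × (G × G) => Φ (a, q) :=
      hΦc.comp (continuous_const.prodMk continuous_id)
    rw [integral_prod _ (integrableA _ hc1)]
    simp only [h2]
    exact cv_shift (μ := μ) (cv μ (A 1) (A 0)) (cv μ (A 3) (A 2)) (b1 * b2 * r1) (a⁻¹ * l1⁻¹) x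
  simp only [h3]
  simp

end conv

end

end Pool.Agent.N558.HC
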